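import Mathlib
import Pool.Agent.Work.MP_5e5ff1_ag.M.All
import Pool.Agent.Work.MP_5e5ff1_ag.Bd.B12
import Pool.Agent.Work.MP_5e5ff1_ag.Bd.B13

/-! Assembly of the one prime theorem. -/

open Polynomial Matrix NumberField

namespace Pool.Agent.MSU
open Pool.Agent.Work.MP_5e5ff1_ag

namespace OFin

theorem stab : O_Stab := prf_O_Stab prf_O_Ord prf_O_Const prf_O_Inv
theorem lift : O_Lift := prf_O_Lift prf_O_Dec prf_O_Rel prf_O_Red prf_O_Mult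
theorem irr : O_Irr := prf_O_Irr stab lift All.h_N_Main All.h_M_St All.h_M_Irr All.h_M_Prod
theorem gen : O_Gen := prf_O_Gen prf_O_Block prf_O_QBlock prf_O_Sum
theorem main : O_Main := prf_O_Main prf_O_Val irr gen prf_O_Abs

end OFin

theorem one_prime_nf (K : Type) [Field K] [NumberField K] (r n : ℕ)
    (b c : Matrix (Fin r) (Fin r) (𝓞 K)) (P : Ideal (𝓞 K)) (hP : P.IsMaximal)
    (hn : (n : 𝓞 K) ∉ P) (hψ : PCurvZero n b c P) :
    ∃ (m : Fin 3 → Fin r → ℕ) (M : Fin 3 → Matrix.unitaryGroup (Fin r) ℂ),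
      (∀ x j, m x j < ringChar (𝓞 K ⧸ P)) ∧
      (b.map (Ideal.Quotient.mk P)).charpoly
        = ∏ j, (X - C ((n : 𝓞 K ⧸ P) * (m 0 j : 𝓞 K ⧸ P))) ∧
      (c.map (Ideal.Quotient.mk P)).charpoly
        = ∏ j, (X - C ((n : 𝓞 K ⧸ P) * (m 1 j : 𝓞 K ⧸ P))) ∧
      ((-(b + c)).map (Ideal.Quotient.mk P)).charpoly
        = ∏ j, (X - C ((n : 𝓞 K ⧸ P) * (m 2 j : 𝓞 K ⧸ P))) ∧
      M 0 * M 1 * M 2 = 1 ∧
      (∀ x, (M x : Matrix (Fin r) (Fin r) ℂ).charpoly = ∏ j, (X - C (Complex.exp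
        (2 * Real.pi * Complex.I * ((m x j : ℂ) / (ringChar (𝓞 K ⧸ P) : ℂ)))))) ∧
      (Algebra.adjoin (𝓞 K ⧸ P) {b.map (Ideal.Quotient.mk P), c.map (Ideal.Quotient.mk P)} = ⊤ →
        ∀ U : Submodule ℂ (Fin r → ℂ),
          (∀ x, U.map (M x : Matrix (Fin r) (Fin r) ℂ).mulVecLin ≤ U) → U = ⊥ ∨ U = ⊤) := by
  classical
  let _ : Field (𝓞 K ⧸ P) := Ideal.Quotient.field P
  have hbot : P ≠ ⊥ := Ring.ne_bot_of_isMaximal_of_not_isField hP (RingOfIntegers.not_isField K)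
  have : Finite (𝓞 K ⧸ P) := Ideal.finiteQuotientOfFreeOfNeBot P hbot
  set p := ringChar (𝓞 K ⧸ P) with hp
  have : CharP (𝓞 K ⧸ P) p := ringChar.charP _
  have hpp : p.Prime := by
    have := CharP.char_is_prime (𝓞 K ⧸ P) p
    exact this
  have hn0 : (n : 𝓞 K ⧸ P) ≠ 0 := by
    intro h
    apply hn
    rw [← Ideal.Quotient.eq_zero_iff_mem]
    simpa using h
  set B : Matrix (Fin r) (Fin r) (𝓞 K ⧸ P) := b.map (Ideal.Quotient.mk P) with hB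
  set D : Matrix (Fin r) (Fin r) (𝓞 K ⧸ P) := c.map (Ideal.Quotient.mk P) with hD
  have h1 : Qs (n : 𝓞 K ⧸ P) B D p = 0 := Qs_of_pcurv hψ (RingHom.id (𝓞 K ⧸ P))
  rw [prf_O_Scale _ r (n : 𝓞 K ⧸ P) B D hn0 p] at h1
  have h2 : Qs (1 : 𝓞 K ⧸ P) ((n : 𝓞 K ⧸ P)⁻¹ • B) ((n : 𝓞 K ⧸ P)⁻¹ • D) p = 0 :=
    (smul_eq_zero.mp h1).resolve_left (pow_ne_zero _ (C_ne_zero.mpr hn0))
  obtain ⟨m, M, ⟨hm, hb, hc, hbc, hu, hprod, hch⟩, hirr⟩ := OFin.main p hpp (𝓞 K ⧸ P) r _ _ h2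
  have hscale : ∀ A : Matrix (Fin r) (Fin r) (𝓞 K ⧸ P),
      (n : 𝓞 K ⧸ P) • ((n : 𝓞 K ⧸ P)⁻¹ • A) = A := fun A => by
    rw [smul_smul, mul_inv_cancel₀ hn0, one_smul]
  refine ⟨m, fun x => ⟨M x, Matrix.mem_unitaryGroup_iff'.mpr (hu x)⟩, hm, ?_, ?_, ?_, ?_, hch, ?_⟩
  · have := charpoly_smul_prod hb hn0
    rwa [hscale] at this
  · have := charpoly_smul_prod hc hn0
    rwa [hscale] at this
  · have := charpoly_smul_prod hbc hn0
    rw [← smul_add, ← smul_neg, hscale] at this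
    rw [← this]
    congr 1
  · apply Subtype.ext
    exact hprod
  · intro hadj
    apply hirr
    rw [eq_top_iff, ← hadj]
    apply Algebra.adjoin_le
    intro A hA
    rw [← hscale A]
    apply Subalgebra.smul_mem
    apply Algebra.subset_adjoin
    rcases hA with rfl | hA
    · left; rfl
    · rw [Set.mem_singleton_iff] at hA
      subst hA
      right; rfl

end Pool.Agent.MSU
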